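import Pool.Agent.Y208.BH.Stm

/-!
# Project BH: the action is faithful
-/

set_option autoImplicit false

open scoped commutatorElement

namespace Pool.Agent.Y781.BH

open Y208.BH

section

variable {Λ S R V Q : Type} [Group Λ] [MulAction Λ S] [Ring R] [AddCommGroup V] [Module R V]
  [Group Q] {i : Λ →* Q} {x : S ⊕ Fin 4 → S ⊕ Fin 4 → R → Q}

/-- the subgroup generated by the elementary elements -/
def NN (x : S ⊕ Fin 4 → S ⊕ Fin 4 → R → Q) : Subgroup Q :=
  Subgroup.closure {z | ∃ a b r, a ≠ b ∧ z = x a b r}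

theorem mv_inj (g : Λ) : Function.Injective (mv g : S ⊕ Fin 4 → S ⊕ Fin 4) :=
  Sum.map_injective.2 ⟨MulAction.injective g, Function.injective_id⟩

theorem conj_mem (h : Ext i x) (g : Λ) {n : Q} (hn : n ∈ NN x) : i g * n * (i g)⁻¹ ∈ NN x := by
  refine Subgroup.closure_induction (p := fun n _ => i g * n * (i g)⁻¹ ∈ NN x) ?_ ?_ ?_ ?_ hn
  · rintro _ ⟨a, b, r, hab, rfl⟩
    rw [h.eqv g a b r hab]
    exact Subgroup.subset_closure ⟨mv g a, mv g b, r, (mv_inj g).ne hab, rfl⟩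
  · rw [mul_one, mul_inv_cancel]
    exact one_mem _
  · intro a b _ _ ha hb
    have := mul_mem ha hb
    rwa [show i g * a * (i g)⁻¹ * (i g * b * (i g)⁻¹) = i g * (a * b) * (i g)⁻¹ by group] at this
  · intro a _ ha
    have := inv_mem ha
    rwa [show (i g * a * (i g)⁻¹)⁻¹ = i g * a⁻¹ * (i g)⁻¹ by group] at this

/-- every element is a product -/
theorem exists_mul (h : Ext i x) (q : Q) : ∃ n ∈ NN x, ∃ g : Λ, q = n * i g := by
  have hq : q ∈ Subgroup.closure (Set.range i ∪ {z | ∃ a b r, a ≠ b ∧ z = x a b r}) := by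
    rw [h.gen]
    exact Subgroup.mem_top q
  refine Subgroup.closure_induction (p := fun q _ => ∃ n ∈ NN x, ∃ g : Λ, q = n * i g) ?_ ?_ ?_ ?_
    hq
  · rintro _ (⟨g, rfl⟩ | ⟨a, b, r, hab, rfl⟩)
    · exact ⟨1, one_mem _, g, (one_mul _).symm⟩
    · exact ⟨x a b r, Subgroup.subset_closure ⟨a, b, r, hab, rfl⟩, 1, by rw [map_one, mul_one]⟩
  · exact ⟨1, one_mem _, 1, by rw [map_one, mul_one]⟩
  · rintro _ _ _ _ ⟨n₁, h₁, g₁, rfl⟩ ⟨n₂, h₂, g₂, rfl⟩
    refine ⟨n₁ * (i g₁ * n₂ * (i g₁)⁻¹), mul_mem h₁ (conj_mem h g₁ h₂), g₁ * g₂, ?_⟩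
    rw [map_mul]
    group
  · rintro _ _ ⟨n, hn, g, rfl⟩
    refine ⟨i g⁻¹ * n⁻¹ * (i g⁻¹)⁻¹, conj_mem h g⁻¹ (inv_mem hn), g⁻¹, ?_⟩
    rw [map_inv]
    group

/-- the elements of `N` act trivially on almost all coordinates -/
theorem fix_most {π : Q →* Equiv.Perm (S ⊕ Fin 4 →₀ V)}
    (h2 : ∀ a b r, a ≠ b → π (x a b r) = el a b r) {n : Q} (hn : n ∈ NN x) :
    ∃ J : Finset (S ⊕ Fin 4), ∀ c ∉ J, ∀ v : V,
      π n (Finsupp.single c v) = Finsupp.single c v := by
  classical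
  refine Subgroup.closure_induction (p := fun n _ => ∃ J : Finset (S ⊕ Fin 4), ∀ c ∉ J, ∀ v : V,
      π n (Finsupp.single c v) = Finsupp.single c v) ?_ ?_ ?_ ?_ hn
  · rintro _ ⟨a, b, r, hab, rfl⟩
    refine ⟨{b}, fun c hc v => ?_⟩
    rw [Finset.mem_singleton] at hc
    rw [h2 a b r hab, el_apply hab, Finsupp.single_eq_of_ne (Ne.symm hc), smul_zero,
      Finsupp.single_zero, add_zero]
  · exact ⟨∅, fun c _ v => by rw [map_one, Equiv.Perm.one_apply]⟩
  · rintro a b _ _ ⟨J₁, h₁⟩ ⟨J₂, h₂⟩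
    refine ⟨J₁ ∪ J₂, fun c hc v => ?_⟩
    rw [Finset.mem_union, not_or] at hc
    rw [map_mul, Equiv.Perm.mul_apply, h₂ c hc.2, h₁ c hc.1]
  · rintro a _ ⟨J, h⟩
    refine ⟨J, fun c hc v => ?_⟩
    rw [map_inv, Equiv.Perm.inv_eq_iff_eq]
    exact (h c hc v).symm

theorem pmv_single (g : Λ) (s : S) (v : V) :
    pmv V g (Finsupp.single (Sum.inl s : S ⊕ Fin 4) v) = Finsupp.single (Sum.inl (g • s)) v := by
  show Finsupp.equivMapDomain _ _ = _
  rw [Finsupp.equivMapDomain_single]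
  rfl

end

section

variable {R V I : Type} [Ring R] [AddCommGroup V] [Module R V]

/-- evaluation at a vector -/
noncomputable def th' (v : V) (w : I →₀ R) : I →₀ V :=
  w.mapRange (fun a => a • v) (zero_smul _ _)

theorem th_el (v : V) (w : I →₀ R) {i j : I} (h : i ≠ j) (r : R) :
    th' v (el i j r w) = el i j r (th' v w) := by
  classical
  rw [el_apply h, el_apply h]
  ext k
  simp only [th', Finsupp.mapRange_apply, Finsupp.add_apply]
  rw [add_smul]
  congr 1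
  by_cases hk : i = k
  · subst hk
    rw [Finsupp.single_eq_same, Finsupp.single_eq_same, smul_eq_mul, mul_smul]
  · rw [Finsupp.single_eq_of_ne (Ne.symm hk), Finsupp.single_eq_of_ne (Ne.symm hk), zero_smul]

theorem th_rho (v : V) (z : SU R I) (w : I →₀ R) :
    th' v (rho R R I z w) = rho R V I z (th' v w) := by
  have hz : z ∈ Subgroup.closure {z : SU R I | ∃ (i j : I) (r : R), i ≠ j ∧ z = xs i j r} := by
    rw [closure_xs]
    exact Subgroup.mem_top z
  revert w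
  refine Subgroup.closure_induction (p := fun z _ => ∀ w : I →₀ R,
    th' v (rho R R I z w) = rho R V I z (th' v w)) ?_ ?_ ?_ ?_ hz
  · rintro _ ⟨i, j, r, h, rfl⟩ w
    rw [rho_xs, rho_xs]
    exact th_el v w h r
  · intro w
    rw [map_one, map_one, Equiv.Perm.one_apply, Equiv.Perm.one_apply]
  · intro a b _ _ ha hb w
    rw [map_mul, map_mul, Equiv.Perm.mul_apply, Equiv.Perm.mul_apply, ha, hb]
  · intro a _ ha w
    rw [map_inv, map_inv]
    symm
    rw [Equiv.Perm.inv_eq_iff_eq, ← ha, ← Equiv.Perm.mul_apply, mul_inv_cancel,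
      Equiv.Perm.one_apply]

end

theorem t_INJ : S_K2 → S_INJ := by
  intro hK2 Λ S R V Q _ _ _ _ _ _ i x v0 hA hS hE hG π h1 h2
  rw [injective_iff_map_eq_one]
  intro q hq
  obtain ⟨n, hn, g, rfl⟩ := exists_mul hE q
  obtain ⟨J, hJ⟩ := fix_most h2 hn
  have hinf : Infinite S := hA.inf
  -- the part in `Λ` is trivial
  have hg : g = 1 := by
    by_contra hg
    have h3 := hA.moves g hg
    have h4 : ({s : S | (Sum.inl s : S ⊕ Fin 4) ∈ J} ∪
        {s : S | (Sum.inl (g • s) : S ⊕ Fin 4) ∈ J}).Finite := by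
      refine Set.Finite.union ?_ ?_
      · exact J.finite_toSet.preimage (Sum.inl_injective.injOn)
      · exact J.finite_toSet.preimage ((Sum.inl_injective.comp (MulAction.injective g)).injOn)
    obtain ⟨s, hs1, hs2⟩ := (h3.sdiff h4).nonempty
    rw [Set.mem_union, not_or] at hs2
    have h5 : π (n * i g) (Finsupp.single (Sum.inl s) v0) = Finsupp.single (Sum.inl (g • s)) v0 := by
      rw [map_mul, Equiv.Perm.mul_apply, h1, pmv_single, hJ _ hs2.2]
    rw [hq, Equiv.Perm.one_apply] at h5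
    rcases (Finsupp.single_eq_single_iff _ _ _ _).1 h5 with ⟨h6, -⟩ | ⟨h6, -⟩
    · exact hs1 (Sum.inl_injective h6).symm
    · exact hG.v0ne h6
  subst hg
  rw [map_one, mul_one] at hq ⊢
  -- the part in the Steinberg group
  obtain ⟨π', hπ'⟩ := exists_lift x hE.st
  have hN : NN x ≤ π'.range := by
    unfold NN
    rw [Subgroup.closure_le]
    rintro _ ⟨a, b, r, hab, rfl⟩
    exact ⟨xs a b r, hπ' a b r hab⟩
  obtain ⟨z, rfl⟩ := hN hn
  have hcomp : π.comp π' = rho R V (S ⊕ Fin 4) := by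
    refine MonoidHom.eq_of_eqOn_dense (closure_xs R (S ⊕ Fin 4)) ?_
    rintro _ ⟨a, b, r, hab, rfl⟩
    rw [MonoidHom.comp_apply, hπ' a b r hab, h2 a b r hab, rho_xs]
  have hz : rho R V (S ⊕ Fin 4) z = 1 := by
    rw [← hcomp]
    exact hq
  have hz2 : rho R R (S ⊕ Fin 4) z = 1 := by
    apply Equiv.ext
    intro w
    rw [Equiv.Perm.one_apply]
    ext k
    rw [← sub_eq_zero]
    apply hG.faithful
    intro v
    have h3 := th_rho v z w
    rw [hz, Equiv.Perm.one_apply] at h3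
    have h4 := DFunLike.congr_fun h3 k
    simp only [th', Finsupp.mapRange_apply] at h4
    rw [sub_smul, h4, sub_self]
  rw [hK2 R (S ⊕ Fin 4) hS z hz2, map_one]

end Pool.Agent.Y781.BH
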